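import Pool.Agent.X144.Np.Lin

/-!
Inflated self-avoiding polygons on the square lattice: the probability that a polygon of perimeter
`2 n` encloses an area at least `v^2 n^2`.
-/

set_option autoImplicit false

namespace Pool.Agent.Results.MP_2250b1_co.InflatedPolygons

open Filter Topology

/-- a closed nearest-neighbour loop on `ℤ²` with `m` steps, rooted at the origin and oriented,
that visits no vertex twice -/
def IsLoop (m : ℕ) (f : ZMod m → ℤ × ℤ) : Prop :=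
  f 0 = 0 ∧ Function.Injective f ∧
    ∀ i : ZMod m, |(f (i + 1)).1 - (f i).1| + |(f (i + 1)).2 - (f i).2| = 1

/-- the edge from `f k` to `f (k+1)` is horizontal, joins the columns `x = a` and `x = a + 1`, and
has height larger than `b`: it lies above the unit cell `[a, a+1] × [b, b+1]` -/
def Above (m : ℕ) (f : ZMod m → ℤ × ℤ) (a b : ℤ) (k : ZMod m) : Prop :=
  (((f k).1 = a ∧ (f (k + 1)).1 = a + 1) ∨ ((f k).1 = a + 1 ∧ (f (k + 1)).1 = a)) ∧ b < (f k).2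

/-- the unit cell `[a, a+1] × [b, b+1]` is enclosed by the loop: the vertical ray from the cell
upwards crosses an odd number of edges -/
def Encl (m : ℕ) (f : ZMod m → ℤ × ℤ) (c : ℤ × ℤ) : Prop :=
  Odd (Nat.card {k : ZMod m // Above m f c.1 c.2 k})

/-- the area enclosed by the loop: the number of enclosed unit cells -/
noncomputable def area (m : ℕ) (f : ZMod m → ℤ × ℤ) : ℕ := Nat.card {c : ℤ × ℤ // Encl m f c}

/-- the proportion of the self-avoiding polygons of perimeter `2 n` with area at least `r` -/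
noncomputable def large (n : ℕ) (r : ℝ) : ℝ :=
  ({f : ZMod (2 * n) → ℤ × ℤ | IsLoop (2 * n) f ∧ r ≤ area (2 * n) f}.ncard : ℝ) /
    ({f : ZMod (2 * n) → ℤ × ℤ | IsLoop (2 * n) f}.ncard : ℝ)

/-- `ω` is an `n`-step self-avoiding walk on `ℤ²` started at the origin. -/
def IsSAW (n : ℕ) (ω : Fin (n + 1) → ℤ × ℤ) : Prop :=
  ω 0 = (0, 0) ∧
  (∀ i : Fin n, |(ω i.succ).1 - (ω i.castSucc).1| + |(ω i.succ).2 - (ω i.castSucc).2| = 1) ∧
  Function.Injective ω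

/-- `c_n`: the number of `n`-step self-avoiding walks from the origin -/
noncomputable def c (n : ℕ) : ℕ := Nat.card {ω : Fin (n + 1) → ℤ × ℤ // IsSAW n ω}

/-- `c_n(x)`: the number of `n`-step self-avoiding walks from the origin to `x` -/
noncomputable def cx (n : ℕ) (x : ℤ × ℤ) : ℕ :=
  Nat.card {ω : Fin (n + 1) → ℤ × ℤ // IsSAW n ω ∧ ω (Fin.last n) = x}

/-- the two-point function `G_z(x) = ∑_n c_n(x) z^n` -/
noncomputable def G (z : ℝ) (x : ℤ × ℤ) : ℝ := ∑' n : ℕ, (cx n x : ℝ) * z ^ n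

theorem c_eq (n : ℕ) : c n = TH795.EP.c n := TH795.EP2.card_walks n

theorem cx_eq (n : ℕ) (x : ℤ × ℤ) : cx n x = TH795.EP.a n x.1 x.2 := TH795.EP2.card_walks_to n x

theorem G_eq (z : ℝ) (k : ℕ) : G z ((k : ℤ), 0) = Y981.L2.Gz z k 0 := by
  unfold G Y981.L2.Gz
  apply tsum_congr
  intro n
  rw [cx_eq]

theorem large_eq (n : ℕ) (r : ℝ) : large n r = Y981.L2.par n r := rfl

/-- **Theorem.** Let `μ = lim c_n^(1/n)`.  For `0 < z < 1/μ` the correlation length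
`ξ(z) = (lim_k - (1/k) log G_z((k, 0)))^(-1)` of the self-avoiding walk exists and is positive and
finite.  Let `q_n(r)` be the proportion of the polygons of perimeter `2 n` with area at least `r`.
(1) There are `C, K > 0` and `0 < v₀ < 1/2` such that for all `n ≥ 2` and all `1/n ≤ v ≤ v₀`:
`q_n(v^2 n^2) ≥ exp (- K (n v^2 (log (1/v))^2 + (log n)^2))` and
`q_n(v^2 n^2) ≤ exp (- n v^(C log log (1/v)) + K (log n)^2)`.
(2) For `0 < θ < 1`: `ξ(z) ≤ (1/μ - z)^(-θ-o(1))` as `z ↑ 1/μ` if and only if for every `ε > 0` there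
are `v₁ > 0` and `K` with `q_n(v^2 n^2) ≤ exp (- n v^(1/(1-θ)+ε) + K (log n)^2)` for all `n ≥ 2` and
all `1/n ≤ v ≤ v₁`.
(3) For `0 < θ < 1`: `ξ(z) ≥ (1/μ - z)^(-θ+o(1))` as `z ↑ 1/μ` if and only if for every `ε > 0` there
are `v₁ > 0` and `K` with `q_n(v^2 n^2) ≥ exp (- n v^(1/(1-θ)-ε) - K (log n)^2)` for all `n ≥ 2` and
all `1/n ≤ v ≤ v₁`. -/
theorem result : ∃ (μ : ℝ) (ξ : ℝ → ℝ), 0 < μ ∧
    Tendsto (fun n : ℕ => (c n : ℝ) ^ (1 / (n : ℝ))) atTop (𝓝 μ) ∧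
    (∀ z : ℝ, 0 < z → z < 1 / μ → 0 < ξ z ∧
      Tendsto (fun k : ℕ => - Real.log (G z ((k : ℤ), 0)) / k) atTop (𝓝 (1 / ξ z))) ∧
    (∃ C K v₀ : ℝ, 0 < C ∧ 0 < K ∧ 0 < v₀ ∧ v₀ < 1 / 2 ∧
      ∀ n : ℕ, 2 ≤ n → ∀ v : ℝ, 1 / (n : ℝ) ≤ v → v ≤ v₀ →
        Real.exp (-(K * (n * v ^ 2 * Real.log (1 / v) ^ 2 + Real.log n ^ 2))) ≤
          large n (v ^ 2 * n ^ 2) ∧
        large n (v ^ 2 * n ^ 2) ≤
          Real.exp (-(n * v ^ (C * Real.log (Real.log (1 / v)))) + K * Real.log n ^ 2)) ∧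
    (∀ θ : ℝ, 0 < θ → θ < 1 →
      ((∀ ε : ℝ, 0 < ε → ∀ᶠ z in 𝓝[<] (1 / μ), ξ z ≤ (1 / μ - z) ^ (-(θ + ε))) ↔
        (∀ ε : ℝ, 0 < ε → ∃ v₁ : ℝ, 0 < v₁ ∧ ∃ K : ℝ, ∀ n : ℕ, 2 ≤ n → ∀ v : ℝ,
          1 / (n : ℝ) ≤ v → v ≤ v₁ → large n (v ^ 2 * n ^ 2) ≤
            Real.exp (-((n : ℝ) * v ^ (1 / (1 - θ) + ε)) + K * Real.log n ^ 2)))) ∧
    (∀ θ : ℝ, 0 < θ → θ < 1 →
      ((∀ ε : ℝ, 0 < ε → ∀ᶠ z in 𝓝[<] (1 / μ), (1 / μ - z) ^ (-(θ - ε)) ≤ ξ z) ↔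
        (∀ ε : ℝ, 0 < ε → ∃ v₁ : ℝ, 0 < v₁ ∧ ∃ K : ℝ, ∀ n : ℕ, 2 ≤ n → ∀ v : ℝ,
          1 / (n : ℝ) ≤ v → v ≤ v₁ →
            Real.exp (-((n : ℝ) * v ^ (1 / (1 - θ) - ε) + K * Real.log n ^ 2)) ≤
              large n (v ^ 2 * n ^ 2)))) := by
  have hmu := H981.mu_pos
  obtain ⟨C, K, hC⟩ := X144.Fi.cmp_par
  refine ⟨H981.mu, Y981.L2.xi, hmu, ?_, ?_, ?_, ?_, ?_⟩
  · have h := H981.tendsto_root
    refine h.congr ?_
    intro n
    rw [c_eq, TH795.EP.c_eq]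
  · intro z hz hz1
    have he : 0 < -Real.log (z * H981.mu) := by
      have h1 : z * H981.mu < 1 := by rwa [lt_div_iff₀ hmu] at hz1
      have h2 := Real.log_neg (mul_pos hz hmu) h1
      linarith
    have hm := Y981.L2.mass_pos he
    constructor
    · unfold Y981.L2.xi
      positivity
    · have h := Y981.L2.G_tendsto hz hz1
      unfold Y981.L2.xi
      rw [one_div_one_div]
      refine h.congr ?_
      intro k
      rw [G_eq]
  · obtain ⟨C', K', v₀, h1, h2, h3, h4, h5⟩ := X144.Np.lin_bounds hC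
    refine ⟨C', K', v₀, h1, h2, h3, h4, ?_⟩
    intro n hn v hv hv0
    have h6 := h5 n hn v hv hv0
    simp only [mul_pow] at h6
    exact h6
  · intro θ hθ hθ1
    obtain ⟨-, hU2⟩ := X144.Fi.fisher_up hθ hθ1
    rw [← Y981.L2.xi_upper θ hθ, hU2, X144.Np.lin_up hC]
    simp only [mul_pow, large_eq]
  · intro θ hθ hθ1
    obtain ⟨-, hL2⟩ := X144.Fi.fisher_low hθ hθ1
    rw [← Y981.L2.xi_lower θ hθ, hL2, X144.Np.lin_low hC]
    simp only [mul_pow, large_eq]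

end Pool.Agent.Results.MP_2250b1_co.InflatedPolygons
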