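import Pool.Agent.X315.PolyMixed
import Pool.Agent.TH303.LTwo

/-!
Mixed moments `E[area^a width^b gyr^d]` of the uniform square-lattice self-avoiding polygon of
perimeter `2 n` (`gyr` the squared radius of gyration): consecutive ratios are
`1 + O((log n) / n^(1/2))`, and every product of real powers of such moments and of `n` that
converges along a sparse sequence of `n` converges along all `n`.
-/

open Filter Topology

namespace Pool.Agent.Results.MP_2250b1_co.MixedMoments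

/-- a closed nearest-neighbour loop on `ℤ²` with `m` steps, rooted at the origin and oriented,
that visits no vertex twice -/
def IsLoop (m : ℕ) (f : ZMod m → ℤ × ℤ) : Prop :=
  f 0 = 0 ∧ Function.Injective f ∧
    ∀ i : ZMod m, |(f (i + 1)).1 - (f i).1| + |(f (i + 1)).2 - (f i).2| = 1

/-- the width (horizontal extent) of a loop -/
noncomputable def width (m : ℕ) (f : ZMod m → ℤ × ℤ) : ℕ :=
  sSup {w : ℕ | ∃ i j, w = ((f i).1 - (f j).1).natAbs}

/-- the edge from `f k` to `f (k+1)` is horizontal, joins the columns `x = a` and `x = a + 1`, and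
has height larger than `b`: it lies above the unit cell `[a, a+1] × [b, b+1]` -/
def Above (m : ℕ) (f : ZMod m → ℤ × ℤ) (a b : ℤ) (k : ZMod m) : Prop :=
  (((f k).1 = a ∧ (f (k + 1)).1 = a + 1) ∨ ((f k).1 = a + 1 ∧ (f (k + 1)).1 = a)) ∧ b < (f k).2

/-- the unit cell `[a, a+1] × [b, b+1]` is enclosed by the loop: the vertical ray from the cell
upwards crosses an odd number of edges -/
def Encl (m : ℕ) (f : ZMod m → ℤ × ℤ) (c : ℤ × ℤ) : Prop :=
  Odd (Nat.card {k : ZMod m // Above m f c.1 c.2 k})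

/-- the area: the number of unit cells enclosed by the loop -/
noncomputable def area (m : ℕ) (f : ZMod m → ℤ × ℤ) : ℕ := Nat.card {c : ℤ × ℤ // Encl m f c}

/-- the square of the radius of gyration of the `m` vertices:
`(1 / (2 m²)) ∑_{i, j} |f i - f j|²` -/
noncomputable def gyr (m : ℕ) (f : ZMod m → ℤ × ℤ) : ℝ :=
  (∑ᶠ i, ∑ᶠ j, ((((f i).1 - (f j).1 : ℤ) : ℝ) ^ 2 + (((f i).2 - (f j).2 : ℤ) : ℝ) ^ 2)) /
    (2 * (m : ℝ) ^ 2)

/-- expectation under the uniform law on the (rooted, oriented) self-avoiding polygons of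
perimeter `2 n` -/
noncomputable def E (n : ℕ) (F : (ZMod (2 * n) → ℤ × ℤ) → ℝ) : ℝ :=
  (∑ᶠ f ∈ {f : ZMod (2 * n) → ℤ × ℤ | IsLoop (2 * n) f}, F f) /
    ({f : ZMod (2 * n) → ℤ × ℤ | IsLoop (2 * n) f}.ncard : ℝ)

/-- the mixed moment `M_n(a, b, d) = E[area^a width^b gyr^d]` for the perimeter `2 n` -/
noncomputable def M (n a b d : ℕ) : ℝ := E n (fun f =>
  (area (2 * n) f : ℝ) ^ a * (width (2 * n) f : ℝ) ^ b * gyr (2 * n) f ^ d)

/-- **Theorem.** (1) For all natural numbers `a, b, d` there is `K` with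
`|M_{n+1}(a, b, d) / M_n(a, b, d) - 1| ≤ K (log n) / n^(1/2)` for all `n ≥ 2`.
(2) Let `Q_n = n^θ ∏_{i < r} M_n(a_i, b_i, d_i)^{x_i}` with natural `a_i, b_i, d_i` and real
`x_i, θ`, and let `s_k → ∞` be a sequence of integers with
`(s_{k+1} - s_k) (log s_k) / s_k^(1/2) → 0`.  If `Q_n → c > 0` along `n = s_k`, then along all
`n`. -/
theorem result : (∀ a b d : ℕ, ∃ K : ℝ, ∀ n : ℕ, 2 ≤ n →
      |M (n + 1) a b d / M n a b d - 1| ≤ K * (Real.log n / Real.sqrt n)) ∧
    ∀ (r : ℕ) (a b d : Fin r → ℕ) (x : Fin r → ℝ) (θ c : ℝ) (s : ℕ → ℕ), Tendsto s atTop atTop →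
      Tendsto (fun k => ((s (k + 1) : ℝ) - s k) * (Real.log (s k) / Real.sqrt (s k)))
        atTop (𝓝 0) →
      0 < c →
      Tendsto (fun k => (s k : ℝ) ^ θ * ∏ i, M (s k) (a i) (b i) (d i) ^ x i) atTop (𝓝 c) →
      Tendsto (fun n : ℕ => (n : ℝ) ^ θ * ∏ i, M n (a i) (b i) (d i) ^ x i) atTop (𝓝 c) := by
  refine ⟨fun a b d => Pool.Agent.TH303.LTwo.rate (Pool.Agent.W387.Q.PM.MM_ratio a b d),
    fun r a b d x θ c s hs hgap' hc0 hc => ?_⟩
  have hgap := Pool.Agent.TH303.LTwo.gap s hs hgap'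
  exact Pool.Agent.W387.Q.PM.QQ_sparse (fun i => (a i, b i, d i)) x θ s hs hgap c hc0 hc

end Pool.Agent.Results.MP_2250b1_co.MixedMoments
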