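import Pool.Agent.X144.Np.All

/-!
The area of the square-lattice self-avoiding polygons: lower bounds for the probability that the area
is much smaller than it should be, in terms of the correlation length of the self-avoiding walk.
-/

set_option autoImplicit false

namespace Pool.Agent.Results.MP_2250b1_co.SmallArea

open Filter Topology

/-- a closed nearest-neighbour loop on `ℤ²` with `m` steps, rooted at the origin and oriented,
that visits no vertex twice -/
def IsLoop (m : ℕ) (f : ZMod m → ℤ × ℤ) : Prop :=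
  f 0 = 0 ∧ Function.Injective f ∧
    ∀ i : ZMod m, |(f (i + 1)).1 - (f i).1| + |(f (i + 1)).2 - (f i).2| = 1

/-- the edge from `f k` to `f (k+1)` is horizontal, joins the columns `x = a` and `x = a + 1`, and
has height larger than `b`: it lies above the unit cell `[a, a+1] × [b, b+1]` -/
def Above (m : ℕ) (f : ZMod m → ℤ × ℤ) (a b : ℤ) (k : ZMod m) : Prop :=
  (((f k).1 = a ∧ (f (k + 1)).1 = a + 1) ∨ ((f k).1 = a + 1 ∧ (f (k + 1)).1 = a)) ∧ b < (f k).2

/-- the unit cell `[a, a+1] × [b, b+1]` is enclosed by the loop: the vertical ray from the cell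
upwards crosses an odd number of edges -/
def Encl (m : ℕ) (f : ZMod m → ℤ × ℤ) (c : ℤ × ℤ) : Prop :=
  Odd (Nat.card {k : ZMod m // Above m f c.1 c.2 k})

/-- the area enclosed by the loop: the number of enclosed unit cells -/
noncomputable def area (m : ℕ) (f : ZMod m → ℤ × ℤ) : ℕ := Nat.card {c : ℤ × ℤ // Encl m f c}

/-- the proportion of the self-avoiding polygons of perimeter `2 n` with area at most `r` -/
noncomputable def small (n : ℕ) (r : ℝ) : ℝ :=
  ({f : ZMod (2 * n) → ℤ × ℤ | IsLoop (2 * n) f ∧ (area (2 * n) f : ℝ) ≤ r}.ncard : ℝ) /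
    ({f : ZMod (2 * n) → ℤ × ℤ | IsLoop (2 * n) f}.ncard : ℝ)

/-- `ω` is an `n`-step self-avoiding walk on `ℤ²` started at the origin. -/
def IsSAW (n : ℕ) (ω : Fin (n + 1) → ℤ × ℤ) : Prop :=
  ω 0 = (0, 0) ∧
  (∀ i : Fin n, |(ω i.succ).1 - (ω i.castSucc).1| + |(ω i.succ).2 - (ω i.castSucc).2| = 1) ∧
  Function.Injective ω

/-- `c_n`: the number of `n`-step self-avoiding walks from the origin -/
noncomputable def c (n : ℕ) : ℕ := Nat.card {ω : Fin (n + 1) → ℤ × ℤ // IsSAW n ω}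

/-- `c_n(x)`: the number of `n`-step self-avoiding walks from the origin to `x` -/
noncomputable def cx (n : ℕ) (x : ℤ × ℤ) : ℕ :=
  Nat.card {ω : Fin (n + 1) → ℤ × ℤ // IsSAW n ω ∧ ω (Fin.last n) = x}

/-- the two-point function `G_z(x) = ∑_n c_n(x) z^n` -/
noncomputable def G (z : ℝ) (x : ℤ × ℤ) : ℝ := ∑' n : ℕ, (cx n x : ℝ) * z ^ n

theorem c_eq (n : ℕ) : c n = TH795.EP.c n := TH795.EP2.card_walks n

theorem cx_eq (n : ℕ) (x : ℤ × ℤ) : cx n x = TH795.EP.a n x.1 x.2 := TH795.EP2.card_walks_to n x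

theorem G_eq (z : ℝ) (k : ℕ) : G z ((k : ℤ), 0) = Y981.L2.Gz z k 0 := by
  unfold G Y981.L2.Gz
  apply tsum_congr
  intro n
  rw [cx_eq]

theorem small_eq (n : ℕ) (r : ℝ) : small n r = X144.Np.sa n r := rfl

/-- **Theorem.** Let `μ = lim c_n^(1/n)`.  For `0 < z < 1/μ` the correlation length
`ξ(z) = (lim_k - (1/k) log G_z((k, 0)))^(-1)` of the self-avoiding walk exists and is positive and
finite.
(1) There is `K > 0` such that for all `n ≥ N ≥ 2`, with `ξ_N = ξ(e^(-1/N)/μ)`, the proportion of the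
polygons of perimeter `2 n` with area at most `K (n/N) ξ_N^2 (log N)^4` is at least
`exp (- K (n/N) (log N)^2)`;
(2) if `θ > 1/2` and `ξ(z) ≤ (1/μ - z)^(-θ-o(1))` as `z ↑ 1/μ`, then for all `1 < b < 2 θ` the
proportion of the polygons of perimeter `2 n` with area at most `n^b` is at least
`exp (- n^((2θ-b)/(2θ-1)+o(1)))`;
(3) for all `1 < b < 2` this proportion is at least `exp (- n^(2-b+o(1)))`. -/
theorem result : ∃ (μ : ℝ) (ξ : ℝ → ℝ), 0 < μ ∧
    Tendsto (fun n : ℕ => (c n : ℝ) ^ (1 / (n : ℝ))) atTop (𝓝 μ) ∧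
    (∀ z : ℝ, 0 < z → z < 1 / μ → 0 < ξ z ∧
      Tendsto (fun k : ℕ => - Real.log (G z ((k : ℤ), 0)) / k) atTop (𝓝 (1 / ξ z))) ∧
    (∃ K : ℝ, 0 < K ∧ ∀ N n : ℕ, 2 ≤ N → N ≤ n →
      Real.exp (-(K * ((n : ℝ) / N * Real.log N ^ 2))) ≤
        small n (K * ((n : ℝ) / N * ξ (Real.exp (-(1 / (N : ℝ))) / μ) ^ 2 * Real.log N ^ 4))) ∧
    (∀ θ : ℝ, 1 / 2 < θ →
      (∀ ε : ℝ, 0 < ε → ∀ᶠ z in 𝓝[<] (1 / μ), ξ z ≤ (1 / μ - z) ^ (-(θ + ε))) →
      ∀ b : ℝ, 1 < b → b < 2 * θ → ∀ ε : ℝ, 0 < ε → ∀ᶠ n : ℕ in atTop,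
        Real.exp (-(n : ℝ) ^ ((2 * θ - b) / (2 * θ - 1) + ε)) ≤ small n ((n : ℝ) ^ b)) ∧
    (∀ b : ℝ, 1 < b → b < 2 → ∀ ε : ℝ, 0 < ε → ∀ᶠ n : ℕ in atTop,
        Real.exp (-(n : ℝ) ^ (2 - b + ε)) ≤ small n ((n : ℝ) ^ b)) := by
  have hmu := H981.mu_pos
  refine ⟨H981.mu, Y981.L2.xi, hmu, ?_, ?_, ?_, ?_, ?_⟩
  · have h := H981.tendsto_root
    refine h.congr ?_
    intro n
    rw [c_eq, TH795.EP.c_eq]
  · intro z hz hz1
    have he : 0 < -Real.log (z * H981.mu) := by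
      have h1 : z * H981.mu < 1 := by rwa [lt_div_iff₀ hmu] at hz1
      have h2 := Real.log_neg (mul_pos hz hmu) h1
      linarith
    have hm := Y981.L2.mass_pos he
    constructor
    · unfold Y981.L2.xi
      positivity
    · have h := Y981.L2.G_tendsto hz hz1
      unfold Y981.L2.xi
      rw [one_div_one_div]
      refine h.congr ?_
      intro k
      rw [G_eq]
  · obtain ⟨K, hK, h⟩ := X144.Np.poly_xi
    refine ⟨K + K ^ 2, by positivity, ?_⟩
    intro N n hN hn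
    have hNp : (0 : ℝ) < N := by exact_mod_cast (by omega : 0 < N)
    have hxi : 0 < Y981.L2.xi (Real.exp (-(1 / (N : ℝ))) / H981.mu) := by
      rw [X144.Np.xi_N]
      have := Y981.L2.mass_pos (show (0 : ℝ) < 1 / N by positivity)
      positivity
    obtain ⟨x, hx⟩ : ∃ x, x = Y981.L2.xi (Real.exp (-(1 / (N : ℝ))) / H981.mu) := ⟨_, rfl⟩
    have h1 := h N n hN hn
    rw [← hx] at h1 hxi ⊢
    have h2 : 0 ≤ (n : ℝ) / N * Real.log N ^ 2 := by positivity
    refine le_trans (Real.exp_le_exp.2 ?_) (h1.trans (X144.Np.nar_le_sa (by omega)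
      (by positivity) ?_))
    · nlinarith [sq_nonneg K]
    · have h3 : K * (x * Real.log N ^ 2) * (K * ((n : ℝ) / N * x * Real.log N ^ 2)) =
          K ^ 2 * ((n : ℝ) / N * x ^ 2 * Real.log N ^ 4) := by ring
      rw [h3]
      apply mul_le_mul_of_nonneg_right _ (by positivity)
      linarith
  · intro θ hθ hξ b hb hbθ ε hε
    exact X144.Np.area_low hθ ((Y981.L2.xi_upper θ (by linarith)).2 hξ) hb hbθ hε
  · intro b hb hb2 ε hε
    have h := X144.Np.area_low (by norm_num) X144.Cp.massLow_one hb (by linarith) hε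
    filter_upwards [h] with n hn
    have e : (2 * 1 - b) / (2 * 1 - 1) + ε = 2 - b + ε := by ring
    rwa [e] at hn

end Pool.Agent.Results.MP_2250b1_co.SmallArea
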