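import Pool.Agent.X132.Ve.Exp

/-!
Square-lattice self-avoiding polygons weighted by `exp (-s * area)` (the vesicle ensemble): the
free energy near `s = 0`, the mean area, the lower tail of the area and the correlation length of
the self-avoiding walk.
-/

set_option autoImplicit false

namespace Pool.Agent.Results.MP_2250b1_co.VesicleFreeEnergy

open Filter Topology

/-- a closed nearest-neighbour loop on `ℤ²` with `m` steps, rooted at the origin and oriented,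
that visits no vertex twice -/
def IsLoop (m : ℕ) (f : ZMod m → ℤ × ℤ) : Prop :=
  f 0 = 0 ∧ Function.Injective f ∧
    ∀ i : ZMod m, |(f (i + 1)).1 - (f i).1| + |(f (i + 1)).2 - (f i).2| = 1

/-- the edge from `f k` to `f (k+1)` is horizontal, joins the columns `x = a` and `x = a + 1`, and
has height larger than `b`: it lies above the unit cell `[a, a+1] × [b, b+1]` -/
def Above (m : ℕ) (f : ZMod m → ℤ × ℤ) (a b : ℤ) (k : ZMod m) : Prop :=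
  (((f k).1 = a ∧ (f (k + 1)).1 = a + 1) ∨ ((f k).1 = a + 1 ∧ (f (k + 1)).1 = a)) ∧ b < (f k).2

/-- the unit cell `[a, a+1] × [b, b+1]` is enclosed by the loop: the vertical ray from the cell
upwards crosses an odd number of edges -/
def Encl (m : ℕ) (f : ZMod m → ℤ × ℤ) (c : ℤ × ℤ) : Prop :=
  Odd (Nat.card {k : ZMod m // Above m f c.1 c.2 k})

/-- the area: the number of unit cells enclosed by the loop -/
noncomputable def area (m : ℕ) (f : ZMod m → ℤ × ℤ) : ℕ := Nat.card {c : ℤ × ℤ // Encl m f c}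

/-- the mean area `A_n` of the self-avoiding polygons of perimeter `2 n`: the average of the
area over the rooted oriented polygons. -/
noncomputable def A (n : ℕ) : ℝ :=
  (∑ᶠ f ∈ {f : ZMod (2 * n) → ℤ × ℤ | IsLoop (2 * n) f}, (area (2 * n) f : ℝ)) /
    ({f : ZMod (2 * n) → ℤ × ℤ | IsLoop (2 * n) f}.ncard : ℝ)

/-- the proportion of the self-avoiding polygons of perimeter `2 n` with area at most `r` -/
noncomputable def small (n : ℕ) (r : ℝ) : ℝ :=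
  ({f : ZMod (2 * n) → ℤ × ℤ | IsLoop (2 * n) f ∧ (area (2 * n) f : ℝ) ≤ r}.ncard : ℝ) /
    ({f : ZMod (2 * n) → ℤ × ℤ | IsLoop (2 * n) f}.ncard : ℝ)

/-- the partition function `Z_n(s)`: the sum of `exp (-s * area)` over the rooted oriented
self-avoiding polygons of perimeter `2 n` -/
noncomputable def Z (s : ℝ) (n : ℕ) : ℝ :=
  ∑ᶠ f ∈ {f : ZMod (2 * n) → ℤ × ℤ | IsLoop (2 * n) f}, Real.exp (-(s * area (2 * n) f))

/-- `ω` is an `n`-step self-avoiding walk on `ℤ²` started at the origin. -/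
def IsSAW (n : ℕ) (ω : Fin (n + 1) → ℤ × ℤ) : Prop :=
  ω 0 = (0, 0) ∧
  (∀ i : Fin n, |(ω i.succ).1 - (ω i.castSucc).1| + |(ω i.succ).2 - (ω i.castSucc).2| = 1) ∧
  Function.Injective ω

/-- `c_n`: the number of `n`-step self-avoiding walks from the origin -/
noncomputable def c (n : ℕ) : ℕ := Nat.card {ω : Fin (n + 1) → ℤ × ℤ // IsSAW n ω}

/-- `c_n(x)`: the number of `n`-step self-avoiding walks from the origin to `x` -/
noncomputable def cx (n : ℕ) (x : ℤ × ℤ) : ℕ :=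
  Nat.card {ω : Fin (n + 1) → ℤ × ℤ // IsSAW n ω ∧ ω (Fin.last n) = x}

/-- the two-point function `G_z(x) = ∑_n c_n(x) z^n` -/
noncomputable def G (z : ℝ) (x : ℤ × ℤ) : ℝ := ∑' n : ℕ, (cx n x : ℝ) * z ^ n

theorem c_eq (n : ℕ) : c n = TH795.EP.c n := TH795.EP2.card_walks n

theorem cx_eq (n : ℕ) (x : ℤ × ℤ) : cx n x = TH795.EP.a n x.1 x.2 := TH795.EP2.card_walks_to n x

theorem G_eq (z : ℝ) (k : ℕ) : G z ((k : ℤ), 0) = Y981.L2.Gz z k 0 := by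
  unfold G Y981.L2.Gz
  apply tsum_congr
  intro n
  rw [cx_eq]

theorem xi_eq (N : ℝ) :
    Y981.L2.xi (Real.exp (-(1 / (2 * N))) / H981.mu) = 1 / Y981.L2.mass (1 / (2 * N)) := by
  unfold Y981.L2.xi
  rw [div_mul_cancel₀ _ H981.mu_pos.ne', Real.log_exp, neg_neg]

/-- **Theorem.** Let `μ = lim c_n^(1/n)`.  For `0 < z < 1/μ` the correlation length
`ξ(z) = (lim_k - (1/k) log G_z((k, 0)))^(-1)` exists and is positive and finite.  For every
`s ≥ 0` the free energy `κ(s) = lim (1/2n) log Z_n(s)` exists, and `κ(0) = log μ`.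
Let `F(s) = κ(0) - κ(s)`.
(1) There is `K` such that for all `n ≥ 2` and `s ≥ 0`: `2 n F(s) ≤ s (A_n + 1) + K (log n)^2`, and
the proportion of the polygons of perimeter `2 n` with area at most `a` is at most
`exp (s (a + 1) - 2 n F(s) + K (log n)^2)` for all real `a`.
(2) There is `K > 0` such that `F(s) ≤ K (log N)^4 / N` if `N ≥ 2`, `s ≥ 0` and
`s ξ(e^(-1/(2N))/μ)^2 ≤ 1`.
(3) There is `a > 0` with `F(s) ≤ s^(1/2 + a / log log (1/s))` for all small `s > 0`.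
(4) If `α > 0` and `A_n ≤ n^(α+o(1))`, then `F(s) ≤ s^(1/α-o(1))` as `s ↓ 0`.
(5) If `0 < θ < 1` and `ξ(z) ≤ (1/μ - z)^(-θ-o(1))` as `z ↑ 1/μ`, then `F(s) ≤ s^(1/(2θ)-o(1))`.
(6) If `φ > 0` and `F(s) ≥ s^(φ+o(1))` as `s ↓ 0`, then `A_n ≥ n^(1/φ-o(1))`, and for
`1 < b < 1/φ` the proportion of the polygons of perimeter `2 n` with area at most `n^b` is at most
`exp (-n^((1-φb)/(1-φ)-o(1)))`. -/
theorem result : ∃ (μ : ℝ) (ξ κ : ℝ → ℝ), 0 < μ ∧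
    Tendsto (fun n : ℕ => (c n : ℝ) ^ (1 / (n : ℝ))) atTop (𝓝 μ) ∧
    (∀ z : ℝ, 0 < z → z < 1 / μ → 0 < ξ z ∧
      Tendsto (fun k : ℕ => - Real.log (G z ((k : ℤ), 0)) / k) atTop (𝓝 (1 / ξ z))) ∧
    (∀ s : ℝ, 0 ≤ s →
      Tendsto (fun n : ℕ => Real.log (Z s n) / (2 * n)) atTop (𝓝 (κ s))) ∧
    κ 0 = Real.log μ ∧
    (∃ K : ℝ, ∀ n : ℕ, 2 ≤ n → ∀ s : ℝ, 0 ≤ s →
      2 * n * (κ 0 - κ s) ≤ s * (A n + 1) + K * Real.log n ^ 2 ∧
      ∀ a : ℝ, small n a ≤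
        Real.exp (s * (a + 1) - 2 * n * (κ 0 - κ s) + K * Real.log n ^ 2)) ∧
    (∃ K : ℝ, 0 < K ∧ ∀ N : ℕ, 2 ≤ N → ∀ s : ℝ, 0 ≤ s →
      s * ξ (Real.exp (-(1 / (2 * (N : ℝ)))) / μ) ^ 2 ≤ 1 →
        κ 0 - κ s ≤ K * Real.log N ^ 4 / N) ∧
    (∃ a : ℝ, 0 < a ∧ ∀ᶠ s in 𝓝[>] (0 : ℝ),
      κ 0 - κ s ≤ s ^ (1 / 2 + a / Real.log (Real.log (1 / s)))) ∧
    (∀ α : ℝ, 0 < α → (∀ ε : ℝ, 0 < ε → ∀ᶠ n : ℕ in atTop, A n ≤ (n : ℝ) ^ (α + ε)) →
      ∀ ε : ℝ, 0 < ε → ∀ᶠ s in 𝓝[>] (0 : ℝ), κ 0 - κ s ≤ s ^ (1 / α - ε)) ∧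
    (∀ θ : ℝ, 0 < θ → θ < 1 →
      (∀ ε : ℝ, 0 < ε → ∀ᶠ z in 𝓝[<] (1 / μ), ξ z ≤ (1 / μ - z) ^ (-(θ + ε))) →
      ∀ ε : ℝ, 0 < ε → ∀ᶠ s in 𝓝[>] (0 : ℝ), κ 0 - κ s ≤ s ^ (1 / (2 * θ) - ε)) ∧
    (∀ φ : ℝ, 0 < φ →
      (∀ ε : ℝ, 0 < ε → ∀ᶠ s in 𝓝[>] (0 : ℝ), s ^ (φ + ε) ≤ κ 0 - κ s) →
      ∀ ε : ℝ, 0 < ε →
        (∀ᶠ n : ℕ in atTop, (n : ℝ) ^ (1 / φ - ε) ≤ A n) ∧
        ∀ b : ℝ, 1 < b → b < 1 / φ → ∀ᶠ n : ℕ in atTop,
          small n ((n : ℝ) ^ b) ≤ Real.exp (-(n : ℝ) ^ ((1 - φ * b) / (1 - φ) - ε))) := by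
  have hmu := H981.mu_pos
  refine ⟨H981.mu, Y981.L2.xi, X132.Ve.kap, hmu, ?_, ?_, ?_, X132.Ve.kap_zero, ?_, ?_, ?_, ?_, ?_,
    ?_⟩
  · have h := H981.tendsto_root
    refine h.congr ?_
    intro n
    rw [c_eq, TH795.EP.c_eq]
  · intro z hz hz1
    have he : 0 < -Real.log (z * H981.mu) := by
      have h1 : z * H981.mu < 1 := by rwa [lt_div_iff₀ hmu] at hz1
      have h2 := Real.log_neg (mul_pos hz hmu) h1
      linarith
    have hm := Y981.L2.mass_pos he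
    constructor
    · unfold Y981.L2.xi
      positivity
    · have h := Y981.L2.G_tendsto hz hz1
      unfold Y981.L2.xi
      rw [one_div_one_div]
      refine h.congr ?_
      intro k
      rw [G_eq]
  · intro s hs
    exact X132.Ve.Zl_tendsto hs
  · rw [X132.Ve.kap_zero]
    obtain ⟨K1, hK1, h1⟩ := X132.Ve.F_le_ma
    obtain ⟨K2, hK2, h2⟩ := X132.Ve.sm_le
    refine ⟨K1 + K2, ?_⟩
    intro n hn s hs
    have p1 : 0 ≤ K1 * Real.log (n : ℝ) ^ 2 := by positivity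
    have p2 : 0 ≤ K2 * Real.log (n : ℝ) ^ 2 := by positivity
    constructor
    · have g1 := h1 n hn s hs
      have : A n = Y981.L2.ma n := rfl
      rw [this]
      linarith
    · intro a
      refine le_trans (show small n a ≤ _ from h2 n hn s hs a) ?_
      apply Real.exp_le_exp.2
      linarith
  · rw [X132.Ve.kap_zero]
    obtain ⟨K, hK, h⟩ := X132.Ve.F_le_mass
    refine ⟨K, hK, ?_⟩
    intro N hN s hs h1
    rw [xi_eq] at h1
    exact h N hN s hs h1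
  · rw [X132.Ve.kap_zero]
    exact X132.Ve.F_log
  · intro α hα H ε hε
    rw [X132.Ve.kap_zero]
    exact X132.Ve.F_upper hα H hε
  · intro θ h0 h1 hξ ε hε
    rw [X132.Ve.kap_zero]
    have hM : Y981.L2.MassLow θ := (Y981.L2.xi_upper θ h0).2 hξ
    exact X132.Ve.F_massLow h0 h1 hM hε
  · rw [X132.Ve.kap_zero]
    intro φ hφ H ε hε
    refine ⟨X132.Ve.ma_lower hφ H hε, ?_⟩
    intro b hb hb'
    refine X132.Ve.sm_upper hφ H hb ?_ hε
    rw [lt_div_iff₀ hφ] at hb'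
    linarith

end Pool.Agent.Results.MP_2250b1_co.VesicleFreeEnergy
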